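import Mathlib
import Pool.Agent.Helper29.EMT.Slots

/-!
# MP_5186fc_co : words for the zigzag chain with an odd number of rows, in coordinates

The line of labels is cut into slots; before the slot `s` there are `X s` vertex blocks, `Y s` edge
blocks, `Z0 s` of the two blocks `V_0, E_0` and `Z1 s` of the two blocks `V_n, E_{n-1}`.
-/

set_option autoImplicit false

open SimpleGraph

namespace Pool.Agent.Helper36.EMT

open Pool.Agent.Helper29.EMT

theorem isEMT_of_pos (m n : ℕ) (hm : 2 ≤ m) (hn : 2 ≤ n) (a p : ℕ → ℤ) (K : ℤ) (L : ℕ)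
    (hp0 : p 0 = 0) (hpL : p L = 3 * m * n - m - n)
    (hslot : ∀ s, s < L → (∃ j, j ≤ n ∧ a j = p s ∧ p (s + 1) = p s + lenV m n j) ∨
      (∃ j, j < n ∧ a j + a (j + 1) + p s + lenE m n j - 1 = K ∧
        p (s + 1) = p s + lenE m n j)) :
    IsEMT (grid m n) := by
  refine isEMT_of_chain m n hm hn a K ?_
  have hstep : ∀ s : ℕ, s < L → Cov (chainSet m n a K) (p s) (p (s + 1)) := by
    intro s hs
    rcases hslot s hs with ⟨j, hj, h1, h2⟩ | ⟨j, hj, hr, h2⟩
    · by_cases h0 : j = 0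
      · have h3 := cov_N0 m n a K
        rw [← h0, h1] at h3
        refine h3.congr rfl ?_
        rw [h2, lenV, if_pos h0]
      · by_cases hn' : j = n
        · have h3 := cov_Nn m n a K
          rw [← hn', h1, hn'] at h3
          refine h3.congr rfl ?_
          rw [h2, lenV, if_neg h0, if_pos hn']
        · have h3 := cov_N m n a K j (by omega) (by omega)
          rw [h1] at h3
          refine h3.congr rfl ?_
          rw [h2, lenV, if_neg h0, if_neg hn']
    · by_cases h0 : j = 0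
      · have h3 := cov_E0 m n a K
        have h4 : lenE m n j = (((3 * m - 1) / 2 : ℕ) : ℤ) := by rw [lenE, if_pos h0]
        rw [h4] at h2 hr
        rw [h0] at hr
        refine h3.congr ?_ ?_ <;> linarith
      · by_cases hn' : j + 1 = n
        · have h3 := cov_En m n a K
          have h4 : lenE m n j = (((3 * m - 2) / 2 : ℕ) : ℤ) := by
            rw [lenE, if_neg h0, if_pos hn']
          rw [h4] at h2 hr
          rw [hn'] at hr
          rw [show n - 1 = j by omega] at h3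
          refine h3.congr ?_ ?_ <;> linarith
        · have h3 := cov_E m n a K j (by omega) (by omega)
          have h4 : lenE m n j = 2 * m - 1 := by rw [lenE, if_neg h0, if_neg hn']
          rw [h4] at h2 hr
          refine h3.congr ?_ ?_ <;> linarith
  have h := Cov.iter (S := chainSet m n a K) p L hstep
  rw [hp0, hpL] at h
  exact h

/-- Criterion in coordinates, odd number `2 h + 1` of rows. -/
theorem isEMT_of_coords_odd (h n : ℕ) (hh : 1 ≤ h) (hn : 2 ≤ n) (X Y Z0 Z1 : ℕ → ℤ)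
    (sv : ℕ → ℕ) (cX cY cZ : ℤ) (L : ℕ)
    (h0 : X 0 = 0 ∧ Y 0 = 0 ∧ Z0 0 = 0 ∧ Z1 0 = 0)
    (hL : X L = n + 1 ∧ Y L = n ∧ Z0 L = 2 ∧ Z1 L = 2)
    (hs : ∀ s, s < L →
      (∃ j, j ≤ n ∧ sv j = s ∧ X (s + 1) = X s + 1 ∧ Y (s + 1) = Y s ∧
        Z0 (s + 1) = Z0 s + (if j = 0 then 1 else 0) ∧
        Z1 (s + 1) = Z1 s + (if j = n then 1 else 0)) ∨
      (∃ j, j < n ∧ X (s + 1) = X s ∧ Y (s + 1) = Y s + 1 ∧
        Z0 (s + 1) = Z0 s + (if j = 0 then 1 else 0) ∧
        Z1 (s + 1) = Z1 s + (if j + 1 = n then 1 else 0) ∧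
        Y (sv j) + Y (sv (j + 1)) + Y s = cY ∧
        X (sv j) + X (sv (j + 1)) + X s =
          cX + (Z1 (sv j) + Z1 (sv (j + 1)) + Z1 s) + (if j + 1 = n then 1 else 0) ∧
        Z0 (sv j) + Z0 (sv (j + 1)) + Z0 s + (if j = 0 then 1 else 0) =
          cZ + (Z1 (sv j) + Z1 (sv (j + 1)) + Z1 s) + (if j + 1 = n then 1 else 0))) :
    IsEMT (grid (2 * h + 1) n) := by
  obtain ⟨p, hp⟩ : ∃ p : ℕ → ℤ, ∀ s, p s = X s * (2 * h + 1) + Y s * (4 * h + 1) -
    h * (Z0 s + Z1 s) - Z1 s := ⟨fun s => _, fun s => rfl⟩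
  have e1 : (((2 * h + 1 + 1) / 2 : ℕ) : ℤ) = h + 1 := by omega
  have e2 : (((2 * h + 1) / 2 : ℕ) : ℤ) = h := by omega
  have e3 : (((3 * (2 * h + 1) - 1) / 2 : ℕ) : ℤ) = 3 * h + 1 := by omega
  have e4 : (((3 * (2 * h + 1) - 2) / 2 : ℕ) : ℤ) = 3 * h := by omega
  refine isEMT_of_pos (2 * h + 1) n (by omega) hn (fun j => p (sv j)) p
    (cX * (2 * h + 1) + cY * (4 * h + 1) - h * cZ + 4 * h) L ?_ ?_ ?_
  · rw [hp, h0.1, h0.2.1, h0.2.2.1, h0.2.2.2]; ring
  · rw [hp, hL.1, hL.2.1, hL.2.2.1, hL.2.2.2]; push_cast; ring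
  · intro s hs'
    rcases hs s hs' with ⟨j, hj, h1, h2, h3, h4, h5⟩ | ⟨j, hj, h2, h3, h4, h5, h6, h7, h8⟩
    · left
      refine ⟨j, hj, by rw [h1], ?_⟩
      rw [hp, hp, h2, h3, h4, h5, lenV, e1, e2]
      by_cases j0 : j = 0
      · rw [if_pos j0, if_neg (by omega), if_pos j0]; ring
      · by_cases jn : j = n
        · rw [if_neg j0, if_pos jn, if_neg j0, if_pos jn]; ring
        · rw [if_neg j0, if_neg jn, if_neg j0, if_neg jn]; push_cast; ring
    · right
      refine ⟨j, hj, ?_, ?_⟩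
      · have h9 : X s = cX + (Z1 (sv j) + Z1 (sv (j + 1)) + Z1 s) + (if j + 1 = n then 1 else 0)
            - X (sv j) - X (sv (j + 1)) := by linarith
        have h10 : Y s = cY - Y (sv j) - Y (sv (j + 1)) := by linarith
        have h11 : Z0 s = cZ + (Z1 (sv j) + Z1 (sv (j + 1)) + Z1 s) +
          (if j + 1 = n then 1 else 0) - (if j = 0 then 1 else 0)
            - Z0 (sv j) - Z0 (sv (j + 1)) := by linarith
        simp only [hp]
        rw [h9, h10, h11, lenE, e3, e4]
        by_cases j0 : j = 0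
        · rw [if_pos j0, if_pos j0, if_neg (by omega)]; ring
        · by_cases jn : j + 1 = n
          · rw [if_neg j0, if_pos jn, if_pos jn, if_neg j0]; ring
          · rw [if_neg j0, if_neg jn, if_neg jn, if_neg j0]; push_cast; ring
      · rw [hp, hp, h2, h3, h4, h5, lenE, e3, e4]
        by_cases j0 : j = 0
        · rw [if_pos j0, if_neg (by omega), if_pos j0]; ring
        · by_cases jn : j + 1 = n
          · rw [if_neg j0, if_pos jn, if_neg j0, if_pos jn]; ring
          · rw [if_neg j0, if_neg jn, if_neg j0, if_neg jn]; push_cast; ring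

/-- Criterion in coordinates, even number `2 h` of rows. -/
theorem isEMT_of_coords_even (h n : ℕ) (hh : 1 ≤ h) (hn : 2 ≤ n) (X Y Z : ℕ → ℤ)
    (sv : ℕ → ℕ) (cX cY cZ : ℤ) (L : ℕ)
    (h0 : X 0 = 0 ∧ Y 0 = 0 ∧ Z 0 = 0)
    (hL : X L = n + 1 ∧ Y L = n ∧ Z L = 4)
    (hs : ∀ s, s < L →
      (∃ j, j ≤ n ∧ sv j = s ∧ X (s + 1) = X s + 1 ∧ Y (s + 1) = Y s ∧
        Z (s + 1) = Z s + (if j = 0 ∨ j = n then 1 else 0)) ∨
      (∃ j, j < n ∧ X (s + 1) = X s ∧ Y (s + 1) = Y s + 1 ∧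
        Z (s + 1) = Z s + (if j = 0 ∨ j + 1 = n then 1 else 0) ∧
        Y (sv j) + Y (sv (j + 1)) + Y s = cY ∧
        2 * (X (sv j) + X (sv (j + 1)) + X s) + cZ =
          2 * cX + (Z (sv j) + Z (sv (j + 1)) + Z s) +
            (if j = 0 ∨ j + 1 = n then 1 else 0))) :
    IsEMT (grid (2 * h) n) := by
  obtain ⟨p, hp⟩ : ∃ p : ℕ → ℤ, ∀ s, p s = X s * (2 * h) + Y s * (4 * h - 1) - h * Z s :=
    ⟨fun s => _, fun s => rfl⟩
  have e1 : (((2 * h + 1) / 2 : ℕ) : ℤ) = h := by omega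
  have e2 : ((2 * h / 2 : ℕ) : ℤ) = h := by omega
  have e3 : (((3 * (2 * h) - 1) / 2 : ℕ) : ℤ) = 3 * h - 1 := by omega
  have e4 : (((3 * (2 * h) - 2) / 2 : ℕ) : ℤ) = 3 * h - 1 := by omega
  refine isEMT_of_pos (2 * h) n (by omega) hn (fun j => p (sv j)) p
    (cX * (2 * h) + cY * (4 * h - 1) - h * cZ + 4 * h - 2) L ?_ ?_ ?_
  · rw [hp, h0.1, h0.2.1, h0.2.2]; ring
  · rw [hp, hL.1, hL.2.1, hL.2.2]; push_cast; ring
  · intro s hs'
    rcases hs s hs' with ⟨j, hj, h1, h2, h3, h4⟩ | ⟨j, hj, h2, h3, h4, h6, h7⟩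
    · left
      refine ⟨j, hj, by rw [h1], ?_⟩
      rw [hp, hp, h2, h3, h4, lenV, e1, e2]
      by_cases j0 : j = 0
      · rw [if_pos (Or.inl j0), if_pos j0]; ring
      · by_cases jn : j = n
        · rw [if_pos (Or.inr jn), if_neg j0, if_pos jn]; ring
        · rw [if_neg (by omega), if_neg j0, if_neg jn]; push_cast; ring
    · right
      have hd : (if j = 0 ∨ j + 1 = n then (1 : ℤ) else 0) =
          2 * (X (sv j) + X (sv (j + 1)) + X s) + cZ - 2 * cX -
            (Z (sv j) + Z (sv (j + 1)) + Z s) := by linarith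
      have h10 : Y s = cY - Y (sv j) - Y (sv (j + 1)) := by linarith
      refine ⟨j, hj, ?_, ?_⟩
      · simp only [hp]
        rw [h10, lenE, e3, e4]
        by_cases j0 : j = 0
        · rw [if_pos (Or.inl j0)] at hd
          rw [if_pos j0]
          linear_combination (-(h : ℤ)) * hd
        · by_cases jn : j + 1 = n
          · rw [if_pos (Or.inr jn)] at hd
            rw [if_neg j0, if_pos jn]
            linear_combination (-(h : ℤ)) * hd
          · rw [if_neg (by omega)] at hd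
            rw [if_neg j0, if_neg jn]
            push_cast
            linear_combination (-(h : ℤ)) * hd
      · rw [hp, hp, h2, h3, h4, lenE, e3, e4]
        by_cases j0 : j = 0
        · rw [if_pos (Or.inl j0), if_pos j0]; ring
        · by_cases jn : j + 1 = n
          · rw [if_pos (Or.inr jn), if_neg j0, if_pos jn]; ring
          · rw [if_neg (by omega), if_neg j0, if_neg jn]; push_cast; ring

end Pool.Agent.Helper36.EMT
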