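import Mathlib
import Pool.Agent.Helper36.EMT.Crit

/-!
# MP_5186fc_co : family C11, grids with an odd number of rows and `12 p - 1` columns, `p >= 3`
(words of helper46 with two defects; generated file)
-/

set_option autoImplicit false
set_option linter.unusedVariables false
set_option maxHeartbeats 1000000

namespace Pool.Agent.Helper36.EMT

/-- number of edge blocks before the vertex block of rank `x` -/
def Cu (p x : ℕ) : ℕ :=
  if x ≤ 6 * p - 2 then x else if x ≤ 12 * p - 2 then x - 1 else 12 * p - 1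

theorem Cu_0 (p x : ℕ) (hp : 3 ≤ p) (h2 : x ≤ 6 * p - 2) : Cu p x = x := by
  rw [Cu, if_pos h2]

theorem Cu_1 (p x : ℕ) (hp : 3 ≤ p) (h1 : 6 * p - 2 < x) (h2 : x ≤ 12 * p - 2) : Cu p x = x - 1 := by
  rw [Cu, if_neg (by omega), if_pos h2]

theorem Cu_2 (p x : ℕ) (hp : 3 ≤ p) (h1 : 12 * p - 2 < x) : Cu p x = 12 * p - 1 := by
  rw [Cu, if_neg (by omega), if_neg (by omega)]

/-- number of vertex blocks before the edge block of rank `x` -/
def Cv (p x : ℕ) : ℕ :=
  if x ≤ 6 * p - 3 then x + 1 else if x ≤ 12 * p - 3 then x + 2 else 12 * p - 1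

theorem Cv_0 (p x : ℕ) (hp : 3 ≤ p) (h2 : x ≤ 6 * p - 3) : Cv p x = x + 1 := by
  rw [Cv, if_pos h2]

theorem Cv_1 (p x : ℕ) (hp : 3 ≤ p) (h1 : 6 * p - 3 < x) (h2 : x ≤ 12 * p - 3) : Cv p x = x + 2 := by
  rw [Cv, if_neg (by omega), if_pos h2]

theorem Cv_2 (p x : ℕ) (hp : 3 ≤ p) (h1 : 12 * p - 3 < x) : Cv p x = 12 * p - 1 := by
  rw [Cv, if_neg (by omega), if_neg (by omega)]

/-- number of the blocks `V_0, E_0` before the vertex block of rank `x` -/
def Cz0 (p x : ℕ) : ℕ :=
  if x ≤ 0 then 0 else if x ≤ 6 * p - 1 then 1 else 2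

theorem Cz0_0 (p x : ℕ) (hp : 3 ≤ p) (h2 : x ≤ 0) : Cz0 p x = 0 := by
  rw [Cz0, if_pos h2]

theorem Cz0_1 (p x : ℕ) (hp : 3 ≤ p) (h1 : 0 < x) (h2 : x ≤ 6 * p - 1) : Cz0 p x = 1 := by
  rw [Cz0, if_neg (by omega), if_pos h2]

theorem Cz0_2 (p x : ℕ) (hp : 3 ≤ p) (h1 : 6 * p - 1 < x) : Cz0 p x = 2 := by
  rw [Cz0, if_neg (by omega), if_neg (by omega)]

/-- number of the blocks `V_n, E_{n-1}` before the vertex block of rank `x` -/
def Cz1 (p x : ℕ) : ℕ :=
  if x ≤ 4 * p - 2 then 0 else if x ≤ 6 * p + 1 then 1 else 2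

theorem Cz1_0 (p x : ℕ) (hp : 3 ≤ p) (h2 : x ≤ 4 * p - 2) : Cz1 p x = 0 := by
  rw [Cz1, if_pos h2]

theorem Cz1_1 (p x : ℕ) (hp : 3 ≤ p) (h1 : 4 * p - 2 < x) (h2 : x ≤ 6 * p + 1) : Cz1 p x = 1 := by
  rw [Cz1, if_neg (by omega), if_pos h2]

theorem Cz1_2 (p x : ℕ) (hp : 3 ≤ p) (h1 : 6 * p + 1 < x) : Cz1 p x = 2 := by
  rw [Cz1, if_neg (by omega), if_neg (by omega)]

/-- number of the blocks `V_0, E_0` before the edge block of rank `x` -/
def Ce0 (p x : ℕ) : ℕ :=
  if x ≤ 0 then 0 else if x ≤ 6 * p - 3 then 1 else 2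

theorem Ce0_0 (p x : ℕ) (hp : 3 ≤ p) (h2 : x ≤ 0) : Ce0 p x = 0 := by
  rw [Ce0, if_pos h2]

theorem Ce0_1 (p x : ℕ) (hp : 3 ≤ p) (h1 : 0 < x) (h2 : x ≤ 6 * p - 3) : Ce0 p x = 1 := by
  rw [Ce0, if_neg (by omega), if_pos h2]

theorem Ce0_2 (p x : ℕ) (hp : 3 ≤ p) (h1 : 6 * p - 3 < x) : Ce0 p x = 2 := by
  rw [Ce0, if_neg (by omega), if_neg (by omega)]

/-- number of the blocks `V_n, E_{n-1}` before the edge block of rank `x` -/
def Ce1 (p x : ℕ) : ℕ :=
  if x ≤ 4 * p - 2 then 0 else if x ≤ 6 * p - 1 then 1 else 2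

theorem Ce1_0 (p x : ℕ) (hp : 3 ≤ p) (h2 : x ≤ 4 * p - 2) : Ce1 p x = 0 := by
  rw [Ce1, if_pos h2]

theorem Ce1_1 (p x : ℕ) (hp : 3 ≤ p) (h1 : 4 * p - 2 < x) (h2 : x ≤ 6 * p - 1) : Ce1 p x = 1 := by
  rw [Ce1, if_neg (by omega), if_pos h2]

theorem Ce1_2 (p x : ℕ) (hp : 3 ≤ p) (h1 : 6 * p - 1 < x) : Ce1 p x = 2 := by
  rw [Ce1, if_neg (by omega), if_neg (by omega)]

/-- ranks of the vertex blocks -/
def CN (p j : ℕ) : ℕ :=
  if j = 0 then 6 * p - 1
  else if j = 1 then 12 * p - 1
  else if j = 2 then 0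
  else if j = 3 then 6 * p
  else if j = 4 then 6 * p + 2
  else if j = 5 then 2 * p - 1
  else if j < 2 * p + 2 then (if (j - (6)) % 2 = 0 then 6 * p + 3 + (j - (6)) / 2 else 1 + (j - (6)) / 2)
  else if j < 4 * p - 3 then (if (j - (2 * p + 2)) % 2 = 0 then 7 * p + 1 + (j - (2 * p + 2)) / 2 else p + 2 + (j - (2 * p + 2)) / 2)
  else if j = 4 * p - 3 then 10 * p - 1
  else if j = 4 * p - 2 then 8 * p - 1
  else if j = 4 * p - 1 then 4 * p
  else if j = 4 * p then 2 * p + 2
  else if j = 4 * p + 1 then 4 * p - 1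
  else if j = 4 * p + 2 then 2 * p + 1
  else if j = 4 * p + 3 then 12 * p - 2
  else if j = 4 * p + 4 then 2 * p
  else if j < 8 * p + 1 then (if (j - (4 * p + 5)) % 2 = 0 then 12 * p - 3 - (j - (4 * p + 5)) / 2 else 6 * p - 2 - (j - (4 * p + 5)) / 2)
  else if j < 10 * p - 3 then (if (j - (8 * p + 1)) % 2 = 0 then 4 * p - 2 - (j - (8 * p + 1)) / 2 else 10 * p - 2 - (j - (8 * p + 1)) / 2)
  else if j = 10 * p - 3 then p + 1
  else if j = 10 * p - 2 then 9 * p
  else if j = 10 * p - 1 then p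
  else if j = 10 * p then 9 * p - 1
  else if j = 10 * p + 1 then p - 1
  else if j < 12 * p - 1 then (if (j - (10 * p + 2)) % 2 = 0 then 9 * p - 2 - (j - (10 * p + 2)) / 2 else 3 * p - (j - (10 * p + 2)) / 2)
  else 6 * p + 1

theorem CN_s0 (p j : ℕ) (hp : 3 ≤ p) (hj : j = 0) : CN p j = 6 * p - 1 := by
  rw [CN, if_pos hj]

theorem CN_s1 (p j : ℕ) (hp : 3 ≤ p) (hj : j = 1) : CN p j = 12 * p - 1 := by
  rw [CN, if_neg (by omega), if_pos hj]

theorem CN_s2 (p j : ℕ) (hp : 3 ≤ p) (hj : j = 2) : CN p j = 0 := by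
  rw [CN, if_neg (by omega), if_neg (by omega), if_pos hj]

theorem CN_s3 (p j : ℕ) (hp : 3 ≤ p) (hj : j = 3) : CN p j = 6 * p := by
  rw [CN, if_neg (by omega), if_neg (by omega), if_neg (by omega), if_pos hj]

theorem CN_s4 (p j : ℕ) (hp : 3 ≤ p) (hj : j = 4) : CN p j = 6 * p + 2 := by
  rw [CN, if_neg (by omega), if_neg (by omega), if_neg (by omega), if_neg (by omega), if_pos hj]

theorem CN_s5 (p j : ℕ) (hp : 3 ≤ p) (hj : j = 5) : CN p j = 2 * p - 1 := by
  rw [CN, if_neg (by omega), if_neg (by omega), if_neg (by omega), if_neg (by omega), if_neg (by omega), if_pos hj]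

theorem CN_e6 (p j t : ℕ) (hp : 3 ≤ p) (hj : j = 6 + 2 * t) (ht : t < p - 2) :
    CN p j = 6 * p + 3 + t := by
  rw [CN, if_neg (by omega), if_neg (by omega), if_neg (by omega), if_neg (by omega), if_neg (by omega), if_neg (by omega), if_pos (by omega), if_pos (by omega)]
  omega

theorem CN_o6 (p j t : ℕ) (hp : 3 ≤ p) (hj : j = 6 + 2 * t + 1) (ht : t < p - 2) :
    CN p j = 1 + t := by
  rw [CN, if_neg (by omega), if_neg (by omega), if_neg (by omega), if_neg (by omega), if_neg (by omega), if_neg (by omega), if_pos (by omega), if_neg (by omega)]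
  omega

theorem CN_e7 (p j t : ℕ) (hp : 3 ≤ p) (hj : j = 2 * p + 2 + 2 * t) (ht : t < p - 2) :
    CN p j = 7 * p + 1 + t := by
  rw [CN, if_neg (by omega), if_neg (by omega), if_neg (by omega), if_neg (by omega), if_neg (by omega), if_neg (by omega), if_neg (by omega), if_pos (by omega), if_pos (by omega)]
  omega

theorem CN_o7 (p j t : ℕ) (hp : 3 ≤ p) (hj : j = 2 * p + 2 + 2 * t + 1) (ht : t < p - 3) :
    CN p j = p + 2 + t := by
  rw [CN, if_neg (by omega), if_neg (by omega), if_neg (by omega), if_neg (by omega), if_neg (by omega), if_neg (by omega), if_neg (by omega), if_pos (by omega), if_neg (by omega)]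
  omega

theorem CN_s8 (p j : ℕ) (hp : 3 ≤ p) (hj : j = 4 * p - 3) : CN p j = 10 * p - 1 := by
  rw [CN, if_neg (by omega), if_neg (by omega), if_neg (by omega), if_neg (by omega), if_neg (by omega), if_neg (by omega), if_neg (by omega), if_neg (by omega), if_pos hj]

theorem CN_s9 (p j : ℕ) (hp : 3 ≤ p) (hj : j = 4 * p - 2) : CN p j = 8 * p - 1 := by
  rw [CN, if_neg (by omega), if_neg (by omega), if_neg (by omega), if_neg (by omega), if_neg (by omega), if_neg (by omega), if_neg (by omega), if_neg (by omega), if_neg (by omega), if_pos hj]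

theorem CN_s10 (p j : ℕ) (hp : 3 ≤ p) (hj : j = 4 * p - 1) : CN p j = 4 * p := by
  rw [CN, if_neg (by omega), if_neg (by omega), if_neg (by omega), if_neg (by omega), if_neg (by omega), if_neg (by omega), if_neg (by omega), if_neg (by omega), if_neg (by omega), if_neg (by omega), if_pos hj]

theorem CN_s11 (p j : ℕ) (hp : 3 ≤ p) (hj : j = 4 * p) : CN p j = 2 * p + 2 := by
  rw [CN, if_neg (by omega), if_neg (by omega), if_neg (by omega), if_neg (by omega), if_neg (by omega), if_neg (by omega), if_neg (by omega), if_neg (by omega), if_neg (by omega), if_neg (by omega), if_neg (by omega), if_pos hj]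

theorem CN_s12 (p j : ℕ) (hp : 3 ≤ p) (hj : j = 4 * p + 1) : CN p j = 4 * p - 1 := by
  rw [CN, if_neg (by omega), if_neg (by omega), if_neg (by omega), if_neg (by omega), if_neg (by omega), if_neg (by omega), if_neg (by omega), if_neg (by omega), if_neg (by omega), if_neg (by omega), if_neg (by omega), if_neg (by omega), if_pos hj]

theorem CN_s13 (p j : ℕ) (hp : 3 ≤ p) (hj : j = 4 * p + 2) : CN p j = 2 * p + 1 := by
  rw [CN, if_neg (by omega), if_neg (by omega), if_neg (by omega), if_neg (by omega), if_neg (by omega), if_neg (by omega), if_neg (by omega), if_neg (by omega), if_neg (by omega), if_neg (by omega), if_neg (by omega), if_neg (by omega), if_neg (by omega), if_pos hj]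

theorem CN_s14 (p j : ℕ) (hp : 3 ≤ p) (hj : j = 4 * p + 3) : CN p j = 12 * p - 2 := by
  rw [CN, if_neg (by omega), if_neg (by omega), if_neg (by omega), if_neg (by omega), if_neg (by omega), if_neg (by omega), if_neg (by omega), if_neg (by omega), if_neg (by omega), if_neg (by omega), if_neg (by omega), if_neg (by omega), if_neg (by omega), if_neg (by omega), if_pos hj]

theorem CN_s15 (p j : ℕ) (hp : 3 ≤ p) (hj : j = 4 * p + 4) : CN p j = 2 * p := by
  rw [CN, if_neg (by omega), if_neg (by omega), if_neg (by omega), if_neg (by omega), if_neg (by omega), if_neg (by omega), if_neg (by omega), if_neg (by omega), if_neg (by omega), if_neg (by omega), if_neg (by omega), if_neg (by omega), if_neg (by omega), if_neg (by omega), if_neg (by omega), if_pos hj]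

theorem CN_e16 (p j t : ℕ) (hp : 3 ≤ p) (hj : j = 4 * p + 5 + 2 * t) (ht : t < 2 * p - 2) :
    CN p j = 12 * p - 3 - t := by
  rw [CN, if_neg (by omega), if_neg (by omega), if_neg (by omega), if_neg (by omega), if_neg (by omega), if_neg (by omega), if_neg (by omega), if_neg (by omega), if_neg (by omega), if_neg (by omega), if_neg (by omega), if_neg (by omega), if_neg (by omega), if_neg (by omega), if_neg (by omega), if_neg (by omega), if_pos (by omega), if_pos (by omega)]
  omega

theorem CN_o16 (p j t : ℕ) (hp : 3 ≤ p) (hj : j = 4 * p + 5 + 2 * t + 1) (ht : t < 2 * p - 2) :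
    CN p j = 6 * p - 2 - t := by
  rw [CN, if_neg (by omega), if_neg (by omega), if_neg (by omega), if_neg (by omega), if_neg (by omega), if_neg (by omega), if_neg (by omega), if_neg (by omega), if_neg (by omega), if_neg (by omega), if_neg (by omega), if_neg (by omega), if_neg (by omega), if_neg (by omega), if_neg (by omega), if_neg (by omega), if_pos (by omega), if_neg (by omega)]
  omega

theorem CN_e17 (p j t : ℕ) (hp : 3 ≤ p) (hj : j = 8 * p + 1 + 2 * t) (ht : t < p - 2) :
    CN p j = 4 * p - 2 - t := by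
  rw [CN, if_neg (by omega), if_neg (by omega), if_neg (by omega), if_neg (by omega), if_neg (by omega), if_neg (by omega), if_neg (by omega), if_neg (by omega), if_neg (by omega), if_neg (by omega), if_neg (by omega), if_neg (by omega), if_neg (by omega), if_neg (by omega), if_neg (by omega), if_neg (by omega), if_neg (by omega), if_pos (by omega), if_pos (by omega)]
  omega

theorem CN_o17 (p j t : ℕ) (hp : 3 ≤ p) (hj : j = 8 * p + 1 + 2 * t + 1) (ht : t < p - 2) :
    CN p j = 10 * p - 2 - t := by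
  rw [CN, if_neg (by omega), if_neg (by omega), if_neg (by omega), if_neg (by omega), if_neg (by omega), if_neg (by omega), if_neg (by omega), if_neg (by omega), if_neg (by omega), if_neg (by omega), if_neg (by omega), if_neg (by omega), if_neg (by omega), if_neg (by omega), if_neg (by omega), if_neg (by omega), if_neg (by omega), if_pos (by omega), if_neg (by omega)]
  omega

theorem CN_s18 (p j : ℕ) (hp : 3 ≤ p) (hj : j = 10 * p - 3) : CN p j = p + 1 := by
  rw [CN, if_neg (by omega), if_neg (by omega), if_neg (by omega), if_neg (by omega), if_neg (by omega), if_neg (by omega), if_neg (by omega), if_neg (by omega), if_neg (by omega), if_neg (by omega), if_neg (by omega), if_neg (by omega), if_neg (by omega), if_neg (by omega), if_neg (by omega), if_neg (by omega), if_neg (by omega), if_neg (by omega), if_pos hj]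

theorem CN_s19 (p j : ℕ) (hp : 3 ≤ p) (hj : j = 10 * p - 2) : CN p j = 9 * p := by
  rw [CN, if_neg (by omega), if_neg (by omega), if_neg (by omega), if_neg (by omega), if_neg (by omega), if_neg (by omega), if_neg (by omega), if_neg (by omega), if_neg (by omega), if_neg (by omega), if_neg (by omega), if_neg (by omega), if_neg (by omega), if_neg (by omega), if_neg (by omega), if_neg (by omega), if_neg (by omega), if_neg (by omega), if_neg (by omega), if_pos hj]

theorem CN_s20 (p j : ℕ) (hp : 3 ≤ p) (hj : j = 10 * p - 1) : CN p j = p := by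
  rw [CN, if_neg (by omega), if_neg (by omega), if_neg (by omega), if_neg (by omega), if_neg (by omega), if_neg (by omega), if_neg (by omega), if_neg (by omega), if_neg (by omega), if_neg (by omega), if_neg (by omega), if_neg (by omega), if_neg (by omega), if_neg (by omega), if_neg (by omega), if_neg (by omega), if_neg (by omega), if_neg (by omega), if_neg (by omega), if_neg (by omega), if_pos hj]

theorem CN_s21 (p j : ℕ) (hp : 3 ≤ p) (hj : j = 10 * p) : CN p j = 9 * p - 1 := by
  rw [CN, if_neg (by omega), if_neg (by omega), if_neg (by omega), if_neg (by omega), if_neg (by omega), if_neg (by omega), if_neg (by omega), if_neg (by omega), if_neg (by omega), if_neg (by omega), if_neg (by omega), if_neg (by omega), if_neg (by omega), if_neg (by omega), if_neg (by omega), if_neg (by omega), if_neg (by omega), if_neg (by omega), if_neg (by omega), if_neg (by omega), if_neg (by omega), if_pos hj]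

theorem CN_s22 (p j : ℕ) (hp : 3 ≤ p) (hj : j = 10 * p + 1) : CN p j = p - 1 := by
  rw [CN, if_neg (by omega), if_neg (by omega), if_neg (by omega), if_neg (by omega), if_neg (by omega), if_neg (by omega), if_neg (by omega), if_neg (by omega), if_neg (by omega), if_neg (by omega), if_neg (by omega), if_neg (by omega), if_neg (by omega), if_neg (by omega), if_neg (by omega), if_neg (by omega), if_neg (by omega), if_neg (by omega), if_neg (by omega), if_neg (by omega), if_neg (by omega), if_neg (by omega), if_pos hj]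

theorem CN_e23 (p j t : ℕ) (hp : 3 ≤ p) (hj : j = 10 * p + 2 + 2 * t) (ht : t < p - 1) :
    CN p j = 9 * p - 2 - t := by
  rw [CN, if_neg (by omega), if_neg (by omega), if_neg (by omega), if_neg (by omega), if_neg (by omega), if_neg (by omega), if_neg (by omega), if_neg (by omega), if_neg (by omega), if_neg (by omega), if_neg (by omega), if_neg (by omega), if_neg (by omega), if_neg (by omega), if_neg (by omega), if_neg (by omega), if_neg (by omega), if_neg (by omega), if_neg (by omega), if_neg (by omega), if_neg (by omega), if_neg (by omega), if_neg (by omega), if_pos (by omega), if_pos (by omega)]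
  omega

theorem CN_o23 (p j t : ℕ) (hp : 3 ≤ p) (hj : j = 10 * p + 2 + 2 * t + 1) (ht : t < p - 2) :
    CN p j = 3 * p - t := by
  rw [CN, if_neg (by omega), if_neg (by omega), if_neg (by omega), if_neg (by omega), if_neg (by omega), if_neg (by omega), if_neg (by omega), if_neg (by omega), if_neg (by omega), if_neg (by omega), if_neg (by omega), if_neg (by omega), if_neg (by omega), if_neg (by omega), if_neg (by omega), if_neg (by omega), if_neg (by omega), if_neg (by omega), if_neg (by omega), if_neg (by omega), if_neg (by omega), if_neg (by omega), if_neg (by omega), if_pos (by omega), if_neg (by omega)]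
  omega

theorem CN_s24 (p j : ℕ) (hp : 3 ≤ p) (hj : j = 12 * p - 1) : CN p j = 6 * p + 1 := by
  rw [CN, if_neg (by omega), if_neg (by omega), if_neg (by omega), if_neg (by omega), if_neg (by omega), if_neg (by omega), if_neg (by omega), if_neg (by omega), if_neg (by omega), if_neg (by omega), if_neg (by omega), if_neg (by omega), if_neg (by omega), if_neg (by omega), if_neg (by omega), if_neg (by omega), if_neg (by omega), if_neg (by omega), if_neg (by omega), if_neg (by omega), if_neg (by omega), if_neg (by omega), if_neg (by omega), if_neg (by omega)]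

theorem CN_V (p : ℕ) (hp : 3 ≤ p) : ∀ x, x ≤ 12 * p - 1 → ∃ j, j ≤ 12 * p - 1 ∧ CN p j = x ∧
    (j = 0 ↔ x = 6 * p - 1) ∧ (j = 12 * p - 1 ↔ x = 6 * p + 1) := by
  intro x hx
  rcases Nat.lt_or_ge x (1) with hc | hc
  · exact ⟨2, by omega, (CN_s2 p _ hp rfl).trans (by omega), by omega, by omega⟩
  rcases Nat.lt_or_ge x (p - 1) with hc | hc
  · exact ⟨6 + 2 * (x - (1)) + 1, by omega, (CN_o6 p _ (x - (1)) hp rfl (by omega)).trans (by omega),
      by omega, by omega⟩
  rcases Nat.lt_or_ge x (p) with hc | hc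
  · exact ⟨10 * p + 1, by omega, (CN_s22 p _ hp rfl).trans (by omega), by omega, by omega⟩
  rcases Nat.lt_or_ge x (p + 1) with hc | hc
  · exact ⟨10 * p - 1, by omega, (CN_s20 p _ hp rfl).trans (by omega), by omega, by omega⟩
  rcases Nat.lt_or_ge x (p + 2) with hc | hc
  · exact ⟨10 * p - 3, by omega, (CN_s18 p _ hp rfl).trans (by omega), by omega, by omega⟩
  rcases Nat.lt_or_ge x (2 * p - 1) with hc | hc
  · exact ⟨2 * p + 2 + 2 * (x - (p + 2)) + 1, by omega, (CN_o7 p _ (x - (p + 2)) hp rfl (by omega)).trans (by omega),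
      by omega, by omega⟩
  rcases Nat.lt_or_ge x (2 * p) with hc | hc
  · exact ⟨5, by omega, (CN_s5 p _ hp rfl).trans (by omega), by omega, by omega⟩
  rcases Nat.lt_or_ge x (2 * p + 1) with hc | hc
  · exact ⟨4 * p + 4, by omega, (CN_s15 p _ hp rfl).trans (by omega), by omega, by omega⟩
  rcases Nat.lt_or_ge x (2 * p + 2) with hc | hc
  · exact ⟨4 * p + 2, by omega, (CN_s13 p _ hp rfl).trans (by omega), by omega, by omega⟩
  rcases Nat.lt_or_ge x (2 * p + 3) with hc | hc
  · exact ⟨4 * p, by omega, (CN_s11 p _ hp rfl).trans (by omega), by omega, by omega⟩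
  rcases Nat.lt_or_ge x (3 * p + 1) with hc | hc
  · exact ⟨10 * p + 2 + 2 * (3 * p - x) + 1, by omega, (CN_o23 p _ (3 * p - x) hp rfl (by omega)).trans (by omega),
      by omega, by omega⟩
  rcases Nat.lt_or_ge x (4 * p - 1) with hc | hc
  · exact ⟨8 * p + 1 + 2 * (4 * p - 2 - x), by omega, (CN_e17 p _ (4 * p - 2 - x) hp rfl (by omega)).trans (by omega),
      by omega, by omega⟩
  rcases Nat.lt_or_ge x (4 * p) with hc | hc
  · exact ⟨4 * p + 1, by omega, (CN_s12 p _ hp rfl).trans (by omega), by omega, by omega⟩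
  rcases Nat.lt_or_ge x (4 * p + 1) with hc | hc
  · exact ⟨4 * p - 1, by omega, (CN_s10 p _ hp rfl).trans (by omega), by omega, by omega⟩
  rcases Nat.lt_or_ge x (6 * p - 1) with hc | hc
  · exact ⟨4 * p + 5 + 2 * (6 * p - 2 - x) + 1, by omega, (CN_o16 p _ (6 * p - 2 - x) hp rfl (by omega)).trans (by omega),
      by omega, by omega⟩
  rcases Nat.lt_or_ge x (6 * p) with hc | hc
  · exact ⟨0, by omega, (CN_s0 p _ hp rfl).trans (by omega), by omega, by omega⟩
  rcases Nat.lt_or_ge x (6 * p + 1) with hc | hc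
  · exact ⟨3, by omega, (CN_s3 p _ hp rfl).trans (by omega), by omega, by omega⟩
  rcases Nat.lt_or_ge x (6 * p + 2) with hc | hc
  · exact ⟨12 * p - 1, by omega, (CN_s24 p _ hp rfl).trans (by omega), by omega, by omega⟩
  rcases Nat.lt_or_ge x (6 * p + 3) with hc | hc
  · exact ⟨4, by omega, (CN_s4 p _ hp rfl).trans (by omega), by omega, by omega⟩
  rcases Nat.lt_or_ge x (7 * p + 1) with hc | hc
  · exact ⟨6 + 2 * (x - (6 * p + 3)), by omega, (CN_e6 p _ (x - (6 * p + 3)) hp rfl (by omega)).trans (by omega),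
      by omega, by omega⟩
  rcases Nat.lt_or_ge x (8 * p - 1) with hc | hc
  · exact ⟨2 * p + 2 + 2 * (x - (7 * p + 1)), by omega, (CN_e7 p _ (x - (7 * p + 1)) hp rfl (by omega)).trans (by omega),
      by omega, by omega⟩
  rcases Nat.lt_or_ge x (8 * p) with hc | hc
  · exact ⟨4 * p - 2, by omega, (CN_s9 p _ hp rfl).trans (by omega), by omega, by omega⟩
  rcases Nat.lt_or_ge x (9 * p - 1) with hc | hc
  · exact ⟨10 * p + 2 + 2 * (9 * p - 2 - x), by omega, (CN_e23 p _ (9 * p - 2 - x) hp rfl (by omega)).trans (by omega),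
      by omega, by omega⟩
  rcases Nat.lt_or_ge x (9 * p) with hc | hc
  · exact ⟨10 * p, by omega, (CN_s21 p _ hp rfl).trans (by omega), by omega, by omega⟩
  rcases Nat.lt_or_ge x (9 * p + 1) with hc | hc
  · exact ⟨10 * p - 2, by omega, (CN_s19 p _ hp rfl).trans (by omega), by omega, by omega⟩
  rcases Nat.lt_or_ge x (10 * p - 1) with hc | hc
  · exact ⟨8 * p + 1 + 2 * (10 * p - 2 - x) + 1, by omega, (CN_o17 p _ (10 * p - 2 - x) hp rfl (by omega)).trans (by omega),
      by omega, by omega⟩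
  rcases Nat.lt_or_ge x (10 * p) with hc | hc
  · exact ⟨4 * p - 3, by omega, (CN_s8 p _ hp rfl).trans (by omega), by omega, by omega⟩
  rcases Nat.lt_or_ge x (12 * p - 2) with hc | hc
  · exact ⟨4 * p + 5 + 2 * (12 * p - 3 - x), by omega, (CN_e16 p _ (12 * p - 3 - x) hp rfl (by omega)).trans (by omega),
      by omega, by omega⟩
  rcases Nat.lt_or_ge x (12 * p - 1) with hc | hc
  · exact ⟨4 * p + 3, by omega, (CN_s14 p _ hp rfl).trans (by omega), by omega, by omega⟩
  exact ⟨1, by omega, (CN_s1 p _ hp rfl).trans (by omega), by omega, by omega⟩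

theorem CN_E (p : ℕ) (hp : 3 ≤ p) : ∀ y, y < 12 * p - 1 → ∃ j, j < 12 * p - 1 ∧
    CN p j ≤ 12 * p - 1 ∧ CN p (j + 1) ≤ 12 * p - 1 ∧
    Cu p (CN p j) + Cu p (CN p (j + 1)) + y = 18 * p - 3 ∧
    ((j = 0 ∧ y = 0 ∧
      CN p j + CN p (j + 1) + Cv p y =
        18 * p - 4 + (Cz1 p (CN p j) + Cz1 p (CN p (j + 1)) + Ce1 p y) ∧
      Cz0 p (CN p j) + Cz0 p (CN p (j + 1)) + Ce0 p y + 1 =
        1 + (Cz1 p (CN p j) + Cz1 p (CN p (j + 1)) + Ce1 p y)) ∨
    (j + 1 = 12 * p - 1 ∧ y = 4 * p - 2 ∧
      CN p j + CN p (j + 1) + Cv p y =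
        18 * p - 4 + (Cz1 p (CN p j) + Cz1 p (CN p (j + 1)) + Ce1 p y) + 1 ∧
      Cz0 p (CN p j) + Cz0 p (CN p (j + 1)) + Ce0 p y =
        1 + (Cz1 p (CN p j) + Cz1 p (CN p (j + 1)) + Ce1 p y) + 1) ∨
    (j ≠ 0 ∧ j + 1 ≠ 12 * p - 1 ∧ y ≠ 0 ∧ y ≠ 4 * p - 2 ∧
      CN p j + CN p (j + 1) + Cv p y =
        18 * p - 4 + (Cz1 p (CN p j) + Cz1 p (CN p (j + 1)) + Ce1 p y) ∧
      Cz0 p (CN p j) + Cz0 p (CN p (j + 1)) + Ce0 p y =
        1 + (Cz1 p (CN p j) + Cz1 p (CN p (j + 1)) + Ce1 p y))) := by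
  intro y hy
  rcases Nat.lt_or_ge y (1) with hc | hc
  · obtain ⟨j, hj⟩ : ∃ j, j = 0 := ⟨_, rfl⟩
    have h1 := CN_s0 p j hp (by omega)
    have h2 := CN_s1 p (j + 1) hp (by omega)
    have a1 := Cu_1 p (CN p j) hp (by omega) (by omega)
    have a2 := Cu_2 p (CN p (j + 1)) hp (by omega)
    have b1 := Cz0_1 p (CN p j) hp (by omega) (by omega)
    have b2 := Cz0_2 p (CN p (j + 1)) hp (by omega)
    have c1 := Cz1_1 p (CN p j) hp (by omega) (by omega)
    have c2 := Cz1_2 p (CN p (j + 1)) hp (by omega)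
    have d1 := Cv_0 p y hp (by omega)
    have d2 := Ce0_0 p y hp (by omega)
    have d3 := Ce1_0 p y hp (by omega)
    exact ⟨j, by omega, by omega, by omega, by omega, Or.inl ⟨by omega, by omega, by omega, by omega⟩⟩
  rcases Nat.lt_or_ge y (2) with hc | hc
  · obtain ⟨j, hj⟩ : ∃ j, j = 4 * p - 3 := ⟨_, rfl⟩
    have h1 := CN_s8 p j hp (by omega)
    have h2 := CN_s9 p (j + 1) hp (by omega)
    have a1 := Cu_1 p (CN p j) hp (by omega) (by omega)
    have a2 := Cu_1 p (CN p (j + 1)) hp (by omega) (by omega)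
    have b1 := Cz0_2 p (CN p j) hp (by omega)
    have b2 := Cz0_2 p (CN p (j + 1)) hp (by omega)
    have c1 := Cz1_2 p (CN p j) hp (by omega)
    have c2 := Cz1_2 p (CN p (j + 1)) hp (by omega)
    have d1 := Cv_0 p y hp (by omega)
    have d2 := Ce0_1 p y hp (by omega) (by omega)
    have d3 := Ce1_0 p y hp (by omega)
    exact ⟨j, by omega, by omega, by omega, by omega, Or.inr (Or.inr ⟨by omega, by omega, by omega, by omega, by omega, by omega⟩)⟩
  rcases Nat.lt_or_ge y (3) with hc | hc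
  · obtain ⟨j, hj⟩ : ∃ j, j = 4 * p - 4 := ⟨_, rfl⟩
    have h1 := CN_e7 p j (p - 3) hp (by omega) (by omega)
    have h2 := CN_s8 p (j + 1) hp (by omega)
    have a1 := Cu_1 p (CN p j) hp (by omega) (by omega)
    have a2 := Cu_1 p (CN p (j + 1)) hp (by omega) (by omega)
    have b1 := Cz0_2 p (CN p j) hp (by omega)
    have b2 := Cz0_2 p (CN p (j + 1)) hp (by omega)
    have c1 := Cz1_2 p (CN p j) hp (by omega)
    have c2 := Cz1_2 p (CN p (j + 1)) hp (by omega)
    have d1 := Cv_0 p y hp (by omega)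
    have d2 := Ce0_1 p y hp (by omega) (by omega)
    have d3 := Ce1_0 p y hp (by omega)
    exact ⟨j, by omega, by omega, by omega, by omega, Or.inr (Or.inr ⟨by omega, by omega, by omega, by omega, by omega, by omega⟩)⟩
  rcases Nat.lt_or_ge y (4 * p - 2) with hc | hc
  · obtain ⟨j, hj⟩ : ∃ j, j = 4 * p + 5 + (y - (3)) := ⟨_, rfl⟩
    obtain ⟨t, ht | ht⟩ : ∃ t, j = 4 * p + 5 + 2 * t ∨ j = 4 * p + 5 + 2 * t + 1 :=
      ⟨(j - (4 * p + 5)) / 2, by omega⟩
    · have h1 := CN_e16 p j t hp (by omega) (by omega)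
      have h2 := CN_o16 p (j + 1) t hp (by omega) (by omega)
      have a1 := Cu_1 p (CN p j) hp (by omega) (by omega)
      have a2 := Cu_0 p (CN p (j + 1)) hp (by omega)
      have b1 := Cz0_2 p (CN p j) hp (by omega)
      have b2 := Cz0_1 p (CN p (j + 1)) hp (by omega) (by omega)
      have c1 := Cz1_2 p (CN p j) hp (by omega)
      have c2 := Cz1_1 p (CN p (j + 1)) hp (by omega) (by omega)
      have d1 := Cv_0 p y hp (by omega)
      have d2 := Ce0_1 p y hp (by omega) (by omega)
      have d3 := Ce1_0 p y hp (by omega)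
      exact ⟨j, by omega, by omega, by omega, by omega, Or.inr (Or.inr ⟨by omega, by omega, by omega, by omega, by omega, by omega⟩)⟩
    · have h1 := CN_o16 p j t hp (by omega) (by omega)
      have h2 := CN_e16 p (j + 1) (t + 1) hp (by omega) (by omega)
      have a1 := Cu_0 p (CN p j) hp (by omega)
      have a2 := Cu_1 p (CN p (j + 1)) hp (by omega) (by omega)
      have b1 := Cz0_1 p (CN p j) hp (by omega) (by omega)
      have b2 := Cz0_2 p (CN p (j + 1)) hp (by omega)
      have c1 := Cz1_1 p (CN p j) hp (by omega) (by omega)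
      have c2 := Cz1_2 p (CN p (j + 1)) hp (by omega)
      have d1 := Cv_0 p y hp (by omega)
      have d2 := Ce0_1 p y hp (by omega) (by omega)
      have d3 := Ce1_0 p y hp (by omega)
      exact ⟨j, by omega, by omega, by omega, by omega, Or.inr (Or.inr ⟨by omega, by omega, by omega, by omega, by omega, by omega⟩)⟩
  rcases Nat.lt_or_ge y (4 * p - 1) with hc | hc
  · obtain ⟨j, hj⟩ : ∃ j, j = 12 * p - 2 := ⟨_, rfl⟩
    have h1 := CN_e23 p j (p - 2) hp (by omega) (by omega)
    have h2 := CN_s24 p (j + 1) hp (by omega)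
    have a1 := Cu_1 p (CN p j) hp (by omega) (by omega)
    have a2 := Cu_1 p (CN p (j + 1)) hp (by omega) (by omega)
    have b1 := Cz0_2 p (CN p j) hp (by omega)
    have b2 := Cz0_2 p (CN p (j + 1)) hp (by omega)
    have c1 := Cz1_2 p (CN p j) hp (by omega)
    have c2 := Cz1_1 p (CN p (j + 1)) hp (by omega) (by omega)
    have d1 := Cv_0 p y hp (by omega)
    have d2 := Ce0_1 p y hp (by omega) (by omega)
    have d3 := Ce1_0 p y hp (by omega)
    exact ⟨j, by omega, by omega, by omega, by omega, Or.inr (Or.inl ⟨by omega, by omega, by omega, by omega⟩)⟩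
  rcases Nat.lt_or_ge y (4 * p) with hc | hc
  · obtain ⟨j, hj⟩ : ∃ j, j = 4 * p + 2 := ⟨_, rfl⟩
    have h1 := CN_s13 p j hp (by omega)
    have h2 := CN_s14 p (j + 1) hp (by omega)
    have a1 := Cu_0 p (CN p j) hp (by omega)
    have a2 := Cu_1 p (CN p (j + 1)) hp (by omega) (by omega)
    have b1 := Cz0_1 p (CN p j) hp (by omega) (by omega)
    have b2 := Cz0_2 p (CN p (j + 1)) hp (by omega)
    have c1 := Cz1_0 p (CN p j) hp (by omega)
    have c2 := Cz1_2 p (CN p (j + 1)) hp (by omega)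
    have d1 := Cv_0 p y hp (by omega)
    have d2 := Ce0_1 p y hp (by omega) (by omega)
    have d3 := Ce1_1 p y hp (by omega) (by omega)
    exact ⟨j, by omega, by omega, by omega, by omega, Or.inr (Or.inr ⟨by omega, by omega, by omega, by omega, by omega, by omega⟩)⟩
  rcases Nat.lt_or_ge y (4 * p + 1) with hc | hc
  · obtain ⟨j, hj⟩ : ∃ j, j = 4 * p + 3 := ⟨_, rfl⟩
    have h1 := CN_s14 p j hp (by omega)
    have h2 := CN_s15 p (j + 1) hp (by omega)
    have a1 := Cu_1 p (CN p j) hp (by omega) (by omega)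
    have a2 := Cu_0 p (CN p (j + 1)) hp (by omega)
    have b1 := Cz0_2 p (CN p j) hp (by omega)
    have b2 := Cz0_1 p (CN p (j + 1)) hp (by omega) (by omega)
    have c1 := Cz1_2 p (CN p j) hp (by omega)
    have c2 := Cz1_0 p (CN p (j + 1)) hp (by omega)
    have d1 := Cv_0 p y hp (by omega)
    have d2 := Ce0_1 p y hp (by omega) (by omega)
    have d3 := Ce1_1 p y hp (by omega) (by omega)
    exact ⟨j, by omega, by omega, by omega, by omega, Or.inr (Or.inr ⟨by omega, by omega, by omega, by omega, by omega, by omega⟩)⟩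
  rcases Nat.lt_or_ge y (4 * p + 2) with hc | hc
  · obtain ⟨j, hj⟩ : ∃ j, j = 4 * p + 4 := ⟨_, rfl⟩
    have h1 := CN_s15 p j hp (by omega)
    have h2 := CN_e16 p (j + 1) 0 hp (by omega) (by omega)
    have a1 := Cu_0 p (CN p j) hp (by omega)
    have a2 := Cu_1 p (CN p (j + 1)) hp (by omega) (by omega)
    have b1 := Cz0_1 p (CN p j) hp (by omega) (by omega)
    have b2 := Cz0_2 p (CN p (j + 1)) hp (by omega)
    have c1 := Cz1_0 p (CN p j) hp (by omega)
    have c2 := Cz1_2 p (CN p (j + 1)) hp (by omega)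
    have d1 := Cv_0 p y hp (by omega)
    have d2 := Ce0_1 p y hp (by omega) (by omega)
    have d3 := Ce1_1 p y hp (by omega) (by omega)
    exact ⟨j, by omega, by omega, by omega, by omega, Or.inr (Or.inr ⟨by omega, by omega, by omega, by omega, by omega, by omega⟩)⟩
  rcases Nat.lt_or_ge y (6 * p - 3) with hc | hc
  · obtain ⟨j, hj⟩ : ∃ j, j = 8 * p + 1 + (y - (4 * p + 2)) := ⟨_, rfl⟩
    obtain ⟨t, ht | ht⟩ : ∃ t, j = 8 * p + 1 + 2 * t ∨ j = 8 * p + 1 + 2 * t + 1 :=
      ⟨(j - (8 * p + 1)) / 2, by omega⟩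
    · have h1 := CN_e17 p j t hp (by omega) (by omega)
      have h2 := CN_o17 p (j + 1) t hp (by omega) (by omega)
      have a1 := Cu_0 p (CN p j) hp (by omega)
      have a2 := Cu_1 p (CN p (j + 1)) hp (by omega) (by omega)
      have b1 := Cz0_1 p (CN p j) hp (by omega) (by omega)
      have b2 := Cz0_2 p (CN p (j + 1)) hp (by omega)
      have c1 := Cz1_0 p (CN p j) hp (by omega)
      have c2 := Cz1_2 p (CN p (j + 1)) hp (by omega)
      have d1 := Cv_0 p y hp (by omega)
      have d2 := Ce0_1 p y hp (by omega) (by omega)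
      have d3 := Ce1_1 p y hp (by omega) (by omega)
      exact ⟨j, by omega, by omega, by omega, by omega, Or.inr (Or.inr ⟨by omega, by omega, by omega, by omega, by omega, by omega⟩)⟩
    · have h1 := CN_o17 p j t hp (by omega) (by omega)
      have h2 := CN_e17 p (j + 1) (t + 1) hp (by omega) (by omega)
      have a1 := Cu_1 p (CN p j) hp (by omega) (by omega)
      have a2 := Cu_0 p (CN p (j + 1)) hp (by omega)
      have b1 := Cz0_2 p (CN p j) hp (by omega)
      have b2 := Cz0_1 p (CN p (j + 1)) hp (by omega) (by omega)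
      have c1 := Cz1_2 p (CN p j) hp (by omega)
      have c2 := Cz1_0 p (CN p (j + 1)) hp (by omega)
      have d1 := Cv_0 p y hp (by omega)
      have d2 := Ce0_1 p y hp (by omega) (by omega)
      have d3 := Ce1_1 p y hp (by omega) (by omega)
      exact ⟨j, by omega, by omega, by omega, by omega, Or.inr (Or.inr ⟨by omega, by omega, by omega, by omega, by omega, by omega⟩)⟩
  rcases Nat.lt_or_ge y (6 * p - 2) with hc | hc
  · obtain ⟨j, hj⟩ : ∃ j, j = 3 := ⟨_, rfl⟩
    have h1 := CN_s3 p j hp (by omega)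
    have h2 := CN_s4 p (j + 1) hp (by omega)
    have a1 := Cu_1 p (CN p j) hp (by omega) (by omega)
    have a2 := Cu_1 p (CN p (j + 1)) hp (by omega) (by omega)
    have b1 := Cz0_2 p (CN p j) hp (by omega)
    have b2 := Cz0_2 p (CN p (j + 1)) hp (by omega)
    have c1 := Cz1_1 p (CN p j) hp (by omega) (by omega)
    have c2 := Cz1_2 p (CN p (j + 1)) hp (by omega)
    have d1 := Cv_0 p y hp (by omega)
    have d2 := Ce0_1 p y hp (by omega) (by omega)
    have d3 := Ce1_1 p y hp (by omega) (by omega)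
    exact ⟨j, by omega, by omega, by omega, by omega, Or.inr (Or.inr ⟨by omega, by omega, by omega, by omega, by omega, by omega⟩)⟩
  rcases Nat.lt_or_ge y (6 * p - 1) with hc | hc
  · obtain ⟨j, hj⟩ : ∃ j, j = 1 := ⟨_, rfl⟩
    have h1 := CN_s1 p j hp (by omega)
    have h2 := CN_s2 p (j + 1) hp (by omega)
    have a1 := Cu_2 p (CN p j) hp (by omega)
    have a2 := Cu_0 p (CN p (j + 1)) hp (by omega)
    have b1 := Cz0_2 p (CN p j) hp (by omega)
    have b2 := Cz0_0 p (CN p (j + 1)) hp (by omega)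
    have c1 := Cz1_2 p (CN p j) hp (by omega)
    have c2 := Cz1_0 p (CN p (j + 1)) hp (by omega)
    have d1 := Cv_1 p y hp (by omega) (by omega)
    have d2 := Ce0_2 p y hp (by omega)
    have d3 := Ce1_1 p y hp (by omega) (by omega)
    exact ⟨j, by omega, by omega, by omega, by omega, Or.inr (Or.inr ⟨by omega, by omega, by omega, by omega, by omega, by omega⟩)⟩
  rcases Nat.lt_or_ge y (6 * p) with hc | hc
  · obtain ⟨j, hj⟩ : ∃ j, j = 4 * p - 2 := ⟨_, rfl⟩
    have h1 := CN_s9 p j hp (by omega)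
    have h2 := CN_s10 p (j + 1) hp (by omega)
    have a1 := Cu_1 p (CN p j) hp (by omega) (by omega)
    have a2 := Cu_0 p (CN p (j + 1)) hp (by omega)
    have b1 := Cz0_2 p (CN p j) hp (by omega)
    have b2 := Cz0_1 p (CN p (j + 1)) hp (by omega) (by omega)
    have c1 := Cz1_2 p (CN p j) hp (by omega)
    have c2 := Cz1_1 p (CN p (j + 1)) hp (by omega) (by omega)
    have d1 := Cv_1 p y hp (by omega) (by omega)
    have d2 := Ce0_2 p y hp (by omega)
    have d3 := Ce1_1 p y hp (by omega) (by omega)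
    exact ⟨j, by omega, by omega, by omega, by omega, Or.inr (Or.inr ⟨by omega, by omega, by omega, by omega, by omega, by omega⟩)⟩
  rcases Nat.lt_or_ge y (8 * p - 4) with hc | hc
  · obtain ⟨j, hj⟩ : ∃ j, j = 10 * p + 2 + (y - (6 * p)) := ⟨_, rfl⟩
    obtain ⟨t, ht | ht⟩ : ∃ t, j = 10 * p + 2 + 2 * t ∨ j = 10 * p + 2 + 2 * t + 1 :=
      ⟨(j - (10 * p + 2)) / 2, by omega⟩
    · have h1 := CN_e23 p j t hp (by omega) (by omega)
      have h2 := CN_o23 p (j + 1) t hp (by omega) (by omega)
      have a1 := Cu_1 p (CN p j) hp (by omega) (by omega)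
      have a2 := Cu_0 p (CN p (j + 1)) hp (by omega)
      have b1 := Cz0_2 p (CN p j) hp (by omega)
      have b2 := Cz0_1 p (CN p (j + 1)) hp (by omega) (by omega)
      have c1 := Cz1_2 p (CN p j) hp (by omega)
      have c2 := Cz1_0 p (CN p (j + 1)) hp (by omega)
      have d1 := Cv_1 p y hp (by omega) (by omega)
      have d2 := Ce0_2 p y hp (by omega)
      have d3 := Ce1_2 p y hp (by omega)
      exact ⟨j, by omega, by omega, by omega, by omega, Or.inr (Or.inr ⟨by omega, by omega, by omega, by omega, by omega, by omega⟩)⟩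
    · have h1 := CN_o23 p j t hp (by omega) (by omega)
      have h2 := CN_e23 p (j + 1) (t + 1) hp (by omega) (by omega)
      have a1 := Cu_0 p (CN p j) hp (by omega)
      have a2 := Cu_1 p (CN p (j + 1)) hp (by omega) (by omega)
      have b1 := Cz0_1 p (CN p j) hp (by omega) (by omega)
      have b2 := Cz0_2 p (CN p (j + 1)) hp (by omega)
      have c1 := Cz1_0 p (CN p j) hp (by omega)
      have c2 := Cz1_2 p (CN p (j + 1)) hp (by omega)
      have d1 := Cv_1 p y hp (by omega) (by omega)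
      have d2 := Ce0_2 p y hp (by omega)
      have d3 := Ce1_2 p y hp (by omega)
      exact ⟨j, by omega, by omega, by omega, by omega, Or.inr (Or.inr ⟨by omega, by omega, by omega, by omega, by omega, by omega⟩)⟩
  rcases Nat.lt_or_ge y (8 * p - 3) with hc | hc
  · obtain ⟨j, hj⟩ : ∃ j, j = 10 * p - 4 := ⟨_, rfl⟩
    have h1 := CN_o17 p j (p - 3) hp (by omega) (by omega)
    have h2 := CN_s18 p (j + 1) hp (by omega)
    have a1 := Cu_1 p (CN p j) hp (by omega) (by omega)
    have a2 := Cu_0 p (CN p (j + 1)) hp (by omega)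
    have b1 := Cz0_2 p (CN p j) hp (by omega)
    have b2 := Cz0_1 p (CN p (j + 1)) hp (by omega) (by omega)
    have c1 := Cz1_2 p (CN p j) hp (by omega)
    have c2 := Cz1_0 p (CN p (j + 1)) hp (by omega)
    have d1 := Cv_1 p y hp (by omega) (by omega)
    have d2 := Ce0_2 p y hp (by omega)
    have d3 := Ce1_2 p y hp (by omega)
    exact ⟨j, by omega, by omega, by omega, by omega, Or.inr (Or.inr ⟨by omega, by omega, by omega, by omega, by omega, by omega⟩)⟩
  rcases Nat.lt_or_ge y (8 * p - 2) with hc | hc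
  · obtain ⟨j, hj⟩ : ∃ j, j = 10 * p - 3 := ⟨_, rfl⟩
    have h1 := CN_s18 p j hp (by omega)
    have h2 := CN_s19 p (j + 1) hp (by omega)
    have a1 := Cu_0 p (CN p j) hp (by omega)
    have a2 := Cu_1 p (CN p (j + 1)) hp (by omega) (by omega)
    have b1 := Cz0_1 p (CN p j) hp (by omega) (by omega)
    have b2 := Cz0_2 p (CN p (j + 1)) hp (by omega)
    have c1 := Cz1_0 p (CN p j) hp (by omega)
    have c2 := Cz1_2 p (CN p (j + 1)) hp (by omega)
    have d1 := Cv_1 p y hp (by omega) (by omega)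
    have d2 := Ce0_2 p y hp (by omega)
    have d3 := Ce1_2 p y hp (by omega)
    exact ⟨j, by omega, by omega, by omega, by omega, Or.inr (Or.inr ⟨by omega, by omega, by omega, by omega, by omega, by omega⟩)⟩
  rcases Nat.lt_or_ge y (8 * p - 1) with hc | hc
  · obtain ⟨j, hj⟩ : ∃ j, j = 10 * p - 2 := ⟨_, rfl⟩
    have h1 := CN_s19 p j hp (by omega)
    have h2 := CN_s20 p (j + 1) hp (by omega)
    have a1 := Cu_1 p (CN p j) hp (by omega) (by omega)
    have a2 := Cu_0 p (CN p (j + 1)) hp (by omega)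
    have b1 := Cz0_2 p (CN p j) hp (by omega)
    have b2 := Cz0_1 p (CN p (j + 1)) hp (by omega) (by omega)
    have c1 := Cz1_2 p (CN p j) hp (by omega)
    have c2 := Cz1_0 p (CN p (j + 1)) hp (by omega)
    have d1 := Cv_1 p y hp (by omega) (by omega)
    have d2 := Ce0_2 p y hp (by omega)
    have d3 := Ce1_2 p y hp (by omega)
    exact ⟨j, by omega, by omega, by omega, by omega, Or.inr (Or.inr ⟨by omega, by omega, by omega, by omega, by omega, by omega⟩)⟩
  rcases Nat.lt_or_ge y (8 * p) with hc | hc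
  · obtain ⟨j, hj⟩ : ∃ j, j = 10 * p - 1 := ⟨_, rfl⟩
    have h1 := CN_s20 p j hp (by omega)
    have h2 := CN_s21 p (j + 1) hp (by omega)
    have a1 := Cu_0 p (CN p j) hp (by omega)
    have a2 := Cu_1 p (CN p (j + 1)) hp (by omega) (by omega)
    have b1 := Cz0_1 p (CN p j) hp (by omega) (by omega)
    have b2 := Cz0_2 p (CN p (j + 1)) hp (by omega)
    have c1 := Cz1_0 p (CN p j) hp (by omega)
    have c2 := Cz1_2 p (CN p (j + 1)) hp (by omega)
    have d1 := Cv_1 p y hp (by omega) (by omega)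
    have d2 := Ce0_2 p y hp (by omega)
    have d3 := Ce1_2 p y hp (by omega)
    exact ⟨j, by omega, by omega, by omega, by omega, Or.inr (Or.inr ⟨by omega, by omega, by omega, by omega, by omega, by omega⟩)⟩
  rcases Nat.lt_or_ge y (8 * p + 1) with hc | hc
  · obtain ⟨j, hj⟩ : ∃ j, j = 10 * p := ⟨_, rfl⟩
    have h1 := CN_s21 p j hp (by omega)
    have h2 := CN_s22 p (j + 1) hp (by omega)
    have a1 := Cu_1 p (CN p j) hp (by omega) (by omega)
    have a2 := Cu_0 p (CN p (j + 1)) hp (by omega)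
    have b1 := Cz0_2 p (CN p j) hp (by omega)
    have b2 := Cz0_1 p (CN p (j + 1)) hp (by omega) (by omega)
    have c1 := Cz1_2 p (CN p j) hp (by omega)
    have c2 := Cz1_0 p (CN p (j + 1)) hp (by omega)
    have d1 := Cv_1 p y hp (by omega) (by omega)
    have d2 := Ce0_2 p y hp (by omega)
    have d3 := Ce1_2 p y hp (by omega)
    exact ⟨j, by omega, by omega, by omega, by omega, Or.inr (Or.inr ⟨by omega, by omega, by omega, by omega, by omega, by omega⟩)⟩
  rcases Nat.lt_or_ge y (8 * p + 2) with hc | hc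
  · obtain ⟨j, hj⟩ : ∃ j, j = 10 * p + 1 := ⟨_, rfl⟩
    have h1 := CN_s22 p j hp (by omega)
    have h2 := CN_e23 p (j + 1) 0 hp (by omega) (by omega)
    have a1 := Cu_0 p (CN p j) hp (by omega)
    have a2 := Cu_1 p (CN p (j + 1)) hp (by omega) (by omega)
    have b1 := Cz0_1 p (CN p j) hp (by omega) (by omega)
    have b2 := Cz0_2 p (CN p (j + 1)) hp (by omega)
    have c1 := Cz1_0 p (CN p j) hp (by omega)
    have c2 := Cz1_2 p (CN p (j + 1)) hp (by omega)
    have d1 := Cv_1 p y hp (by omega) (by omega)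
    have d2 := Ce0_2 p y hp (by omega)
    have d3 := Ce1_2 p y hp (by omega)
    exact ⟨j, by omega, by omega, by omega, by omega, Or.inr (Or.inr ⟨by omega, by omega, by omega, by omega, by omega, by omega⟩)⟩
  rcases Nat.lt_or_ge y (10 * p - 4) with hc | hc
  · obtain ⟨j, hj⟩ : ∃ j, j = 4 * p - 5 - (y - (8 * p + 2)) := ⟨_, rfl⟩
    obtain ⟨t, ht | ht⟩ : ∃ t, j = 2 * p + 2 + 2 * t ∨ j = 2 * p + 2 + 2 * t + 1 :=
      ⟨(j - (2 * p + 2)) / 2, by omega⟩
    · have h1 := CN_e7 p j t hp (by omega) (by omega)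
      have h2 := CN_o7 p (j + 1) t hp (by omega) (by omega)
      have a1 := Cu_1 p (CN p j) hp (by omega) (by omega)
      have a2 := Cu_0 p (CN p (j + 1)) hp (by omega)
      have b1 := Cz0_2 p (CN p j) hp (by omega)
      have b2 := Cz0_1 p (CN p (j + 1)) hp (by omega) (by omega)
      have c1 := Cz1_2 p (CN p j) hp (by omega)
      have c2 := Cz1_0 p (CN p (j + 1)) hp (by omega)
      have d1 := Cv_1 p y hp (by omega) (by omega)
      have d2 := Ce0_2 p y hp (by omega)
      have d3 := Ce1_2 p y hp (by omega)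
      exact ⟨j, by omega, by omega, by omega, by omega, Or.inr (Or.inr ⟨by omega, by omega, by omega, by omega, by omega, by omega⟩)⟩
    · have h1 := CN_o7 p j t hp (by omega) (by omega)
      have h2 := CN_e7 p (j + 1) (t + 1) hp (by omega) (by omega)
      have a1 := Cu_0 p (CN p j) hp (by omega)
      have a2 := Cu_1 p (CN p (j + 1)) hp (by omega) (by omega)
      have b1 := Cz0_1 p (CN p j) hp (by omega) (by omega)
      have b2 := Cz0_2 p (CN p (j + 1)) hp (by omega)
      have c1 := Cz1_0 p (CN p j) hp (by omega)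
      have c2 := Cz1_2 p (CN p (j + 1)) hp (by omega)
      have d1 := Cv_1 p y hp (by omega) (by omega)
      have d2 := Ce0_2 p y hp (by omega)
      have d3 := Ce1_2 p y hp (by omega)
      exact ⟨j, by omega, by omega, by omega, by omega, Or.inr (Or.inr ⟨by omega, by omega, by omega, by omega, by omega, by omega⟩)⟩
  rcases Nat.lt_or_ge y (10 * p - 3) with hc | hc
  · obtain ⟨j, hj⟩ : ∃ j, j = 5 := ⟨_, rfl⟩
    have h1 := CN_s5 p j hp (by omega)
    have h2 := CN_e6 p (j + 1) 0 hp (by omega) (by omega)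
    have a1 := Cu_0 p (CN p j) hp (by omega)
    have a2 := Cu_1 p (CN p (j + 1)) hp (by omega) (by omega)
    have b1 := Cz0_1 p (CN p j) hp (by omega) (by omega)
    have b2 := Cz0_2 p (CN p (j + 1)) hp (by omega)
    have c1 := Cz1_0 p (CN p j) hp (by omega)
    have c2 := Cz1_2 p (CN p (j + 1)) hp (by omega)
    have d1 := Cv_1 p y hp (by omega) (by omega)
    have d2 := Ce0_2 p y hp (by omega)
    have d3 := Ce1_2 p y hp (by omega)
    exact ⟨j, by omega, by omega, by omega, by omega, Or.inr (Or.inr ⟨by omega, by omega, by omega, by omega, by omega, by omega⟩)⟩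
  rcases Nat.lt_or_ge y (10 * p - 2) with hc | hc
  · obtain ⟨j, hj⟩ : ∃ j, j = 4 := ⟨_, rfl⟩
    have h1 := CN_s4 p j hp (by omega)
    have h2 := CN_s5 p (j + 1) hp (by omega)
    have a1 := Cu_1 p (CN p j) hp (by omega) (by omega)
    have a2 := Cu_0 p (CN p (j + 1)) hp (by omega)
    have b1 := Cz0_2 p (CN p j) hp (by omega)
    have b2 := Cz0_1 p (CN p (j + 1)) hp (by omega) (by omega)
    have c1 := Cz1_2 p (CN p j) hp (by omega)
    have c2 := Cz1_0 p (CN p (j + 1)) hp (by omega)
    have d1 := Cv_1 p y hp (by omega) (by omega)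
    have d2 := Ce0_2 p y hp (by omega)
    have d3 := Ce1_2 p y hp (by omega)
    exact ⟨j, by omega, by omega, by omega, by omega, Or.inr (Or.inr ⟨by omega, by omega, by omega, by omega, by omega, by omega⟩)⟩
  rcases Nat.lt_or_ge y (10 * p - 1) with hc | hc
  · obtain ⟨j, hj⟩ : ∃ j, j = 8 * p := ⟨_, rfl⟩
    have h1 := CN_o16 p j (2 * p - 3) hp (by omega) (by omega)
    have h2 := CN_e17 p (j + 1) 0 hp (by omega) (by omega)
    have a1 := Cu_0 p (CN p j) hp (by omega)
    have a2 := Cu_0 p (CN p (j + 1)) hp (by omega)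
    have b1 := Cz0_1 p (CN p j) hp (by omega) (by omega)
    have b2 := Cz0_1 p (CN p (j + 1)) hp (by omega) (by omega)
    have c1 := Cz1_1 p (CN p j) hp (by omega) (by omega)
    have c2 := Cz1_0 p (CN p (j + 1)) hp (by omega)
    have d1 := Cv_1 p y hp (by omega) (by omega)
    have d2 := Ce0_2 p y hp (by omega)
    have d3 := Ce1_2 p y hp (by omega)
    exact ⟨j, by omega, by omega, by omega, by omega, Or.inr (Or.inr ⟨by omega, by omega, by omega, by omega, by omega, by omega⟩)⟩
  rcases Nat.lt_or_ge y (10 * p) with hc | hc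
  · obtain ⟨j, hj⟩ : ∃ j, j = 2 * p + 1 := ⟨_, rfl⟩
    have h1 := CN_o6 p j (p - 3) hp (by omega) (by omega)
    have h2 := CN_e7 p (j + 1) 0 hp (by omega) (by omega)
    have a1 := Cu_0 p (CN p j) hp (by omega)
    have a2 := Cu_1 p (CN p (j + 1)) hp (by omega) (by omega)
    have b1 := Cz0_1 p (CN p j) hp (by omega) (by omega)
    have b2 := Cz0_2 p (CN p (j + 1)) hp (by omega)
    have c1 := Cz1_0 p (CN p j) hp (by omega)
    have c2 := Cz1_2 p (CN p (j + 1)) hp (by omega)
    have d1 := Cv_1 p y hp (by omega) (by omega)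
    have d2 := Ce0_2 p y hp (by omega)
    have d3 := Ce1_2 p y hp (by omega)
    exact ⟨j, by omega, by omega, by omega, by omega, Or.inr (Or.inr ⟨by omega, by omega, by omega, by omega, by omega, by omega⟩)⟩
  rcases Nat.lt_or_ge y (12 * p - 5) with hc | hc
  · obtain ⟨j, hj⟩ : ∃ j, j = 2 * p - (y - (10 * p)) := ⟨_, rfl⟩
    obtain ⟨t, ht | ht⟩ : ∃ t, j = 6 + 2 * t ∨ j = 6 + 2 * t + 1 :=
      ⟨(j - (6)) / 2, by omega⟩
    · have h1 := CN_e6 p j t hp (by omega) (by omega)
      have h2 := CN_o6 p (j + 1) t hp (by omega) (by omega)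
      have a1 := Cu_1 p (CN p j) hp (by omega) (by omega)
      have a2 := Cu_0 p (CN p (j + 1)) hp (by omega)
      have b1 := Cz0_2 p (CN p j) hp (by omega)
      have b2 := Cz0_1 p (CN p (j + 1)) hp (by omega) (by omega)
      have c1 := Cz1_2 p (CN p j) hp (by omega)
      have c2 := Cz1_0 p (CN p (j + 1)) hp (by omega)
      have d1 := Cv_1 p y hp (by omega) (by omega)
      have d2 := Ce0_2 p y hp (by omega)
      have d3 := Ce1_2 p y hp (by omega)
      exact ⟨j, by omega, by omega, by omega, by omega, Or.inr (Or.inr ⟨by omega, by omega, by omega, by omega, by omega, by omega⟩)⟩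
    · have h1 := CN_o6 p j t hp (by omega) (by omega)
      have h2 := CN_e6 p (j + 1) (t + 1) hp (by omega) (by omega)
      have a1 := Cu_0 p (CN p j) hp (by omega)
      have a2 := Cu_1 p (CN p (j + 1)) hp (by omega) (by omega)
      have b1 := Cz0_1 p (CN p j) hp (by omega) (by omega)
      have b2 := Cz0_2 p (CN p (j + 1)) hp (by omega)
      have c1 := Cz1_0 p (CN p j) hp (by omega)
      have c2 := Cz1_2 p (CN p (j + 1)) hp (by omega)
      have d1 := Cv_1 p y hp (by omega) (by omega)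
      have d2 := Ce0_2 p y hp (by omega)
      have d3 := Ce1_2 p y hp (by omega)
      exact ⟨j, by omega, by omega, by omega, by omega, Or.inr (Or.inr ⟨by omega, by omega, by omega, by omega, by omega, by omega⟩)⟩
  rcases Nat.lt_or_ge y (12 * p - 4) with hc | hc
  · obtain ⟨j, hj⟩ : ∃ j, j = 4 * p - 1 := ⟨_, rfl⟩
    have h1 := CN_s10 p j hp (by omega)
    have h2 := CN_s11 p (j + 1) hp (by omega)
    have a1 := Cu_0 p (CN p j) hp (by omega)
    have a2 := Cu_0 p (CN p (j + 1)) hp (by omega)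
    have b1 := Cz0_1 p (CN p j) hp (by omega) (by omega)
    have b2 := Cz0_1 p (CN p (j + 1)) hp (by omega) (by omega)
    have c1 := Cz1_1 p (CN p j) hp (by omega) (by omega)
    have c2 := Cz1_0 p (CN p (j + 1)) hp (by omega)
    have d1 := Cv_1 p y hp (by omega) (by omega)
    have d2 := Ce0_2 p y hp (by omega)
    have d3 := Ce1_2 p y hp (by omega)
    exact ⟨j, by omega, by omega, by omega, by omega, Or.inr (Or.inr ⟨by omega, by omega, by omega, by omega, by omega, by omega⟩)⟩
  rcases Nat.lt_or_ge y (12 * p - 3) with hc | hc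
  · obtain ⟨j, hj⟩ : ∃ j, j = 4 * p := ⟨_, rfl⟩
    have h1 := CN_s11 p j hp (by omega)
    have h2 := CN_s12 p (j + 1) hp (by omega)
    have a1 := Cu_0 p (CN p j) hp (by omega)
    have a2 := Cu_0 p (CN p (j + 1)) hp (by omega)
    have b1 := Cz0_1 p (CN p j) hp (by omega) (by omega)
    have b2 := Cz0_1 p (CN p (j + 1)) hp (by omega) (by omega)
    have c1 := Cz1_0 p (CN p j) hp (by omega)
    have c2 := Cz1_1 p (CN p (j + 1)) hp (by omega) (by omega)
    have d1 := Cv_1 p y hp (by omega) (by omega)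
    have d2 := Ce0_2 p y hp (by omega)
    have d3 := Ce1_2 p y hp (by omega)
    exact ⟨j, by omega, by omega, by omega, by omega, Or.inr (Or.inr ⟨by omega, by omega, by omega, by omega, by omega, by omega⟩)⟩
  rcases Nat.lt_or_ge y (12 * p - 2) with hc | hc
  · obtain ⟨j, hj⟩ : ∃ j, j = 4 * p + 1 := ⟨_, rfl⟩
    have h1 := CN_s12 p j hp (by omega)
    have h2 := CN_s13 p (j + 1) hp (by omega)
    have a1 := Cu_0 p (CN p j) hp (by omega)
    have a2 := Cu_0 p (CN p (j + 1)) hp (by omega)
    have b1 := Cz0_1 p (CN p j) hp (by omega) (by omega)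
    have b2 := Cz0_1 p (CN p (j + 1)) hp (by omega) (by omega)
    have c1 := Cz1_1 p (CN p j) hp (by omega) (by omega)
    have c2 := Cz1_0 p (CN p (j + 1)) hp (by omega)
    have d1 := Cv_1 p y hp (by omega) (by omega)
    have d2 := Ce0_2 p y hp (by omega)
    have d3 := Ce1_2 p y hp (by omega)
    exact ⟨j, by omega, by omega, by omega, by omega, Or.inr (Or.inr ⟨by omega, by omega, by omega, by omega, by omega, by omega⟩)⟩
  obtain ⟨j, hj⟩ : ∃ j, j = 2 := ⟨_, rfl⟩
  have h1 := CN_s2 p j hp (by omega)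
  have h2 := CN_s3 p (j + 1) hp (by omega)
  have a1 := Cu_0 p (CN p j) hp (by omega)
  have a2 := Cu_1 p (CN p (j + 1)) hp (by omega) (by omega)
  have b1 := Cz0_0 p (CN p j) hp (by omega)
  have b2 := Cz0_2 p (CN p (j + 1)) hp (by omega)
  have c1 := Cz1_0 p (CN p j) hp (by omega)
  have c2 := Cz1_1 p (CN p (j + 1)) hp (by omega) (by omega)
  have d1 := Cv_2 p y hp (by omega)
  have d2 := Ce0_2 p y hp (by omega)
  have d3 := Ce1_2 p y hp (by omega)
  exact ⟨j, by omega, by omega, by omega, by omega, Or.inr (Or.inr ⟨by omega, by omega, by omega, by omega, by omega, by omega⟩)⟩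

end Pool.Agent.Helper36.EMT
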