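import Mathlib
import Pool.Agent.Helper36.EMT.FamC11

/-!
# MP_5186fc_co : grids with an odd number of rows and `12 p - 1` columns, `p ≥ 3`
-/

set_option autoImplicit false

open SimpleGraph

namespace Pool.Agent.Helper36.EMT

open Pool.Agent.Helper29.EMT

/-- number of vertex blocks before the slot `s` -/
def CX (p s : ℕ) : ℕ :=
  if s ≤ 12 * p - 3 then (s + 1) / 2 else if s ≤ 24 * p - 3 then s / 2 + 1
    else if s = 24 * p - 2 then 12 * p - 1 else 12 * p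

/-- number of edge blocks before the slot `s` -/
def CY (p s : ℕ) : ℕ :=
  if s ≤ 12 * p - 3 then s / 2 else if s ≤ 24 * p - 3 then (s - 1) / 2 else 12 * p - 1

/-- number of the blocks `V_0, E_0` before the slot `s` -/
def CZ0 (p s : ℕ) : ℕ := if s ≤ 1 then 0 else if s ≤ 12 * p - 3 then 1 else 2

/-- number of the blocks `V_n, E_{n-1}` before the slot `s` -/
def CZ1 (p s : ℕ) : ℕ := if s ≤ 8 * p - 3 then 0 else if s ≤ 12 * p + 1 then 1 else 2

/-- slot of the vertex block of rank `x` -/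
def CS (p x : ℕ) : ℕ :=
  if x ≤ 6 * p - 2 then 2 * x else if x ≤ 12 * p - 2 then 2 * x - 1 else 24 * p - 2

/-- slot of the edge block of rank `y` -/
def CT (p y : ℕ) : ℕ :=
  if y ≤ 6 * p - 3 then 2 * y + 1 else if y ≤ 12 * p - 3 then 2 * y + 2 else 24 * p - 3

theorem CX_CS (p x : ℕ) (hp : 3 ≤ p) (hx : x ≤ 12 * p - 1) : CX p (CS p x) = x := by
  unfold CX CS; split_ifs <;> omega

theorem CY_CS (p x : ℕ) (hp : 3 ≤ p) (hx : x ≤ 12 * p - 1) : CY p (CS p x) = Cu p x := by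
  unfold CY CS Cu; split_ifs <;> omega

theorem CZ0_CS (p x : ℕ) (hp : 3 ≤ p) (hx : x ≤ 12 * p - 1) : CZ0 p (CS p x) = Cz0 p x := by
  unfold CZ0 CS Cz0; split_ifs <;> omega

theorem CZ1_CS (p x : ℕ) (hp : 3 ≤ p) (hx : x ≤ 12 * p - 1) : CZ1 p (CS p x) = Cz1 p x := by
  unfold CZ1 CS Cz1; split_ifs <;> omega

theorem CX_CS' (p x : ℕ) (hp : 3 ≤ p) (hx : x ≤ 12 * p - 1) : CX p (CS p x + 1) = x + 1 := by
  unfold CX CS; split_ifs <;> omega

theorem CY_CS' (p x : ℕ) (hp : 3 ≤ p) (hx : x ≤ 12 * p - 1) : CY p (CS p x + 1) = Cu p x := by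
  unfold CY CS Cu; split_ifs <;> omega

theorem CZ0_CS' (p x : ℕ) (hp : 3 ≤ p) (hx : x ≤ 12 * p - 1) :
    CZ0 p (CS p x + 1) = Cz0 p x + (if x = 6 * p - 1 then 1 else 0) := by
  unfold CZ0 CS Cz0; split_ifs <;> omega

theorem CZ1_CS' (p x : ℕ) (hp : 3 ≤ p) (hx : x ≤ 12 * p - 1) :
    CZ1 p (CS p x + 1) = Cz1 p x + (if x = 6 * p + 1 then 1 else 0) := by
  unfold CZ1 CS Cz1; split_ifs <;> omega

theorem CX_CT (p y : ℕ) (hp : 3 ≤ p) (hy : y < 12 * p - 1) : CX p (CT p y) = Cv p y := by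
  unfold CX CT Cv; split_ifs <;> omega

theorem CY_CT (p y : ℕ) (hp : 3 ≤ p) (hy : y < 12 * p - 1) : CY p (CT p y) = y := by
  unfold CY CT; split_ifs <;> omega

theorem CZ0_CT (p y : ℕ) (hp : 3 ≤ p) (hy : y < 12 * p - 1) : CZ0 p (CT p y) = Ce0 p y := by
  unfold CZ0 CT Ce0; split_ifs <;> omega

theorem CZ1_CT (p y : ℕ) (hp : 3 ≤ p) (hy : y < 12 * p - 1) : CZ1 p (CT p y) = Ce1 p y := by
  unfold CZ1 CT Ce1; split_ifs <;> omega

theorem CX_CT' (p y : ℕ) (hp : 3 ≤ p) (hy : y < 12 * p - 1) : CX p (CT p y + 1) = Cv p y := by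
  unfold CX CT Cv; split_ifs <;> omega

theorem CY_CT' (p y : ℕ) (hp : 3 ≤ p) (hy : y < 12 * p - 1) : CY p (CT p y + 1) = y + 1 := by
  unfold CY CT; split_ifs <;> omega

theorem CZ0_CT' (p y : ℕ) (hp : 3 ≤ p) (hy : y < 12 * p - 1) :
    CZ0 p (CT p y + 1) = Ce0 p y + (if y = 0 then 1 else 0) := by
  unfold CZ0 CT Ce0; split_ifs <;> omega

theorem CZ1_CT' (p y : ℕ) (hp : 3 ≤ p) (hy : y < 12 * p - 1) :
    CZ1 p (CT p y + 1) = Ce1 p y + (if y = 4 * p - 2 then 1 else 0) := by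
  unfold CZ1 CT Ce1; split_ifs <;> omega

theorem slot_cases (p s : ℕ) (hp : 3 ≤ p) (hs : s < 24 * p - 1) :
    (∃ x, x ≤ 12 * p - 1 ∧ CS p x = s) ∨ (∃ y, y < 12 * p - 1 ∧ CT p y = s) := by
  rcases Nat.even_or_odd' s with ⟨t, ht | ht⟩
  · by_cases h1 : s ≤ 12 * p - 4
    · exact Or.inl ⟨t, by omega, by unfold CS; rw [if_pos (by omega)]; omega⟩
    · by_cases h2 : s = 24 * p - 2
      · refine Or.inl ⟨12 * p - 1, le_rfl, ?_⟩
        unfold CS; rw [if_neg (by omega), if_neg (by omega)]; omega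
      · refine Or.inr ⟨t - 1, by omega, ?_⟩
        unfold CT; rw [if_neg (by omega), if_pos (by omega)]; omega
  · by_cases h1 : s ≤ 12 * p - 5
    · exact Or.inr ⟨t, by omega, by unfold CT; rw [if_pos (by omega)]; omega⟩
    · by_cases h2 : s = 24 * p - 3
      · refine Or.inr ⟨12 * p - 2, by omega, ?_⟩
        unfold CT; rw [if_neg (by omega), if_neg (by omega)]; omega
      · refine Or.inl ⟨t + 1, by omega, ?_⟩
        unfold CS; rw [if_neg (by omega), if_pos (by omega)]; omega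

/-- **Family C11**: `P_{2h+1} □ P_{12p-1}` is edge-magic total for `h ≥ 1`, `p ≥ 3`. -/
theorem isEMT_C11 (p h : ℕ) (hp : 3 ≤ p) (hh : 1 ≤ h) : IsEMT (grid (2 * h + 1) (12 * p - 1)) := by
  refine isEMT_of_coords_odd h (12 * p - 1) hh (by omega) (fun s => (CX p s : ℤ))
    (fun s => (CY p s : ℤ)) (fun s => (CZ0 p s : ℤ)) (fun s => (CZ1 p s : ℤ))
    (fun j => CS p (CN p j)) (18 * p - 4) (18 * p - 3) 1 (24 * p - 1) ?_ ?_ ?_
  · refine ⟨?_, ?_, ?_, ?_⟩
    · simp only [CX]; rw [if_pos (by omega)]; norm_num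
    · simp only [CY]; rw [if_pos (by omega)]; norm_num
    · simp only [CZ0]; rw [if_pos (by omega)]; norm_num
    · simp only [CZ1]; rw [if_pos (by omega)]; norm_num
  · refine ⟨?_, ?_, ?_, ?_⟩
    · simp only [CX]; rw [if_neg (by omega), if_neg (by omega), if_neg (by omega)]; omega
    · simp only [CY]; rw [if_neg (by omega), if_neg (by omega)]
    · simp only [CZ0]; rw [if_neg (by omega), if_neg (by omega)]; norm_num
    · simp only [CZ1]; rw [if_neg (by omega), if_neg (by omega)]; norm_num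
  · intro s hs
    rcases slot_cases p s hp hs with ⟨x, hx, rfl⟩ | ⟨y, hy, rfl⟩
    · left
      obtain ⟨j, hj, hN, h0, hn⟩ := CN_V p hp x hx
      refine ⟨j, hj, by rw [hN], ?_, ?_, ?_, ?_⟩
      · rw [CX_CS' p x hp hx, CX_CS p x hp hx]; push_cast; ring
      · rw [CY_CS' p x hp hx, CY_CS p x hp hx]
      · rw [CZ0_CS' p x hp hx, CZ0_CS p x hp hx]
        by_cases hj0 : j = 0
        · rw [if_pos (h0.1 hj0), if_pos hj0]; push_cast; ring
        · rw [if_neg (fun hc => hj0 (h0.2 hc)), if_neg hj0]; push_cast; ring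
      · rw [CZ1_CS' p x hp hx, CZ1_CS p x hp hx]
        by_cases hj0 : j = 12 * p - 1
        · rw [if_pos (hn.1 hj0), if_pos hj0]; push_cast; ring
        · rw [if_neg (fun hc => hj0 (hn.2 hc)), if_neg hj0]; push_cast; ring
    · right
      obtain ⟨j, hj, b1, b2, hY, hc⟩ := CN_E p hp y hy
      refine ⟨j, hj, ?_, ?_, ?_, ?_, ?_, ?_, ?_⟩
      · rw [CX_CT' p y hp hy, CX_CT p y hp hy]
      · rw [CY_CT' p y hp hy, CY_CT p y hp hy]; push_cast; ring
      · rw [CZ0_CT' p y hp hy, CZ0_CT p y hp hy]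
        rcases hc with ⟨e1, e2, -, -⟩ | ⟨e1, e2, -, -⟩ | ⟨e1, e2, e3, e4, -, -⟩
        · rw [if_pos e2, if_pos e1]; push_cast; ring
        · rw [if_neg (by omega), if_neg (by omega)]; push_cast; ring
        · rw [if_neg e3, if_neg e1]; push_cast; ring
      · rw [CZ1_CT' p y hp hy, CZ1_CT p y hp hy]
        rcases hc with ⟨e1, e2, -, -⟩ | ⟨e1, e2, -, -⟩ | ⟨e1, e2, e3, e4, -, -⟩
        · rw [if_neg (by omega), if_neg (by omega)]; push_cast; ring
        · rw [if_pos e2, if_pos e1]; push_cast; ring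
        · rw [if_neg e4, if_neg e2]; push_cast; ring
      · rw [CY_CS p _ hp b1, CY_CS p _ hp b2, CY_CT p y hp hy]; omega
      · rw [CX_CS p _ hp b1, CX_CS p _ hp b2, CX_CT p y hp hy, CZ1_CS p _ hp b1,
          CZ1_CS p _ hp b2, CZ1_CT p y hp hy]
        rcases hc with ⟨e1, e2, e5, e6⟩ | ⟨e1, e2, e5, e6⟩ | ⟨e1, e2, e3, e4, e5, e6⟩
        · rw [if_neg (by omega)]; omega
        · rw [if_pos e1]; omega
        · rw [if_neg e2]; omega
      · rw [CZ0_CS p _ hp b1, CZ0_CS p _ hp b2, CZ0_CT p y hp hy, CZ1_CS p _ hp b1,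
          CZ1_CS p _ hp b2, CZ1_CT p y hp hy]
        rcases hc with ⟨e1, e2, e5, e6⟩ | ⟨e1, e2, e5, e6⟩ | ⟨e1, e2, e3, e4, e5, e6⟩
        · rw [if_pos e1, if_neg (by omega)]; omega
        · rw [if_neg (by omega), if_pos e1]; omega
        · rw [if_neg e1, if_neg e2]; omega

end Pool.Agent.Helper36.EMT
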